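import Pool.Agent.Helper69.GU.Defs
import Pool.Agent.Helper26.GT.IDX

/-! # IDXU: congruence subgroups of the group of skew power series of norm one with constant term
in the group of all `x` with `x x₂ = 1` -/

set_option autoImplicit false
set_option linter.unusedSimpArgs false

namespace Pool.Agent.Helper69.GU

open Pool.Agent.Helper51.GT

section group

variable {K : Type} [Field K] {φ : K ≃+* K}

theorem idxu_c_mul (g h : PMat K) (hh : Filp 0 h) :
    PowerSeries.constantCoeff ((g * h) 0 0) =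
      PowerSeries.constantCoeff (g 0 0) * PowerSeries.constantCoeff (h 0 0) := by
  rw [Matrix.mul_apply, map_sum, Finset.sum_eq_single (0 : Fin 4)]
  · rw [map_mul]
  · intro k _ hk
    have hk' : 0 < (k : ℕ) := Nat.pos_of_ne_zero (fun h => hk (Fin.ext h))
    have := hh k 0 0 (by simpa using hk')
    rw [PowerSeries.coeff_zero_eq_constantCoeff] at this
    rw [map_mul, this, mul_zero]
  · intro h0
    exact absurd (Finset.mem_univ _) h0

theorem idxu_F0 {g : (PMat K)ˣ} (h : g ∈ idx_G φ) : Filp 0 g.val := idx_Filp0 (idx_circ_E h.1)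

/-- the group -/
def idxu_G (φ : K ≃+* K) : Subgroup (PMat K)ˣ where
  carrier := {g | g ∈ idx_G φ ∧
    PowerSeries.constantCoeff (g.val 0 0) * fr φ 4 (PowerSeries.constantCoeff (g.val 0 0)) = 1}
  mul_mem' := by
    rintro a b ⟨ha, ha'⟩ ⟨hb, hb'⟩
    refine ⟨mul_mem ha hb, ?_⟩
    rw [Units.val_mul, idxu_c_mul _ _ (idxu_F0 hb), map_mul]
    calc _ = (PowerSeries.constantCoeff (a.val 0 0) *
          fr φ 4 (PowerSeries.constantCoeff (a.val 0 0))) *
        (PowerSeries.constantCoeff (b.val 0 0) *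
          fr φ 4 (PowerSeries.constantCoeff (b.val 0 0))) := by ring
      _ = 1 := by rw [ha', hb', one_mul]
  one_mem' := by
    refine ⟨one_mem _, ?_⟩
    rw [Units.val_one, Matrix.one_apply_eq, map_one, map_one, one_mul]
  inv_mem' := by
    rintro a ⟨ha, ha'⟩
    refine ⟨inv_mem ha, ?_⟩
    have h1 : PowerSeries.constantCoeff (a⁻¹.val 0 0) *
        PowerSeries.constantCoeff (a.val 0 0) = 1 := by
      rw [← idxu_c_mul _ _ (idxu_F0 ha), Units.inv_mul, Matrix.one_apply_eq, map_one]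
    have h2 : fr φ 4 (PowerSeries.constantCoeff (a⁻¹.val 0 0)) *
        fr φ 4 (PowerSeries.constantCoeff (a.val 0 0)) = 1 := by
      rw [← map_mul, h1, map_one]
    have h3 : (PowerSeries.constantCoeff (a⁻¹.val 0 0) *
        fr φ 4 (PowerSeries.constantCoeff (a⁻¹.val 0 0))) *
        (PowerSeries.constantCoeff (a.val 0 0) *
        fr φ 4 (PowerSeries.constantCoeff (a.val 0 0))) = 1 := by
      calc _ = (PowerSeries.constantCoeff (a⁻¹.val 0 0) *
            PowerSeries.constantCoeff (a.val 0 0)) *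
            (fr φ 4 (PowerSeries.constantCoeff (a⁻¹.val 0 0)) *
            fr φ 4 (PowerSeries.constantCoeff (a.val 0 0))) := by ring
        _ = 1 := by rw [h1, h2, one_mul]
    rw [ha', mul_one] at h3
    exact h3

theorem idxu_mem (g : (PMat K)ˣ) : g ∈ idxu_G φ ↔ Circ φ g.val ∧ g.val.det = 1 ∧
    PowerSeries.constantCoeff (g.val 0 0) * fr φ 4 (PowerSeries.constantCoeff (g.val 0 0)) = 1 :=
  and_assoc

/-- the inclusion -/
noncomputable def idxu_f (φ : K ≃+* K) : idxu_G φ →* idx_G φ :=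
  Subgroup.inclusion (fun _ hg => hg.1)

theorem idxu_f_val (g : idxu_G φ) : (idxu_f φ g).val = g.val := rfl

/-- congruence subgroups -/
noncomputable def idxu_N (φ : K ≃+* K) (d : ℕ) : Subgroup (idxu_G φ) := (idx_N φ d).comap (idxu_f φ)

theorem idxu_N_le (d : ℕ) : idxu_N φ (d + 1) ≤ idxu_N φ d :=
  Subgroup.comap_mono (idx_N_le d)

theorem idxu_normal (d : ℕ) : (idxu_N φ d).Normal := by
  have := idx_normal (φ := φ) d
  exact Subgroup.Normal.comap this (idxu_f φ)

variable [Finite K]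

theorem idxu_rel0 : (idxu_N φ 1).index ≠ 0 ∧
    (idxu_N φ 1).index ≤ Nat.card {x : K // x * fr φ 4 x = 1} := by
  apply idx_index (idxu_N φ 1) (fun g : idxu_G φ =>
    (⟨PowerSeries.constantCoeff (g.val.val 0 0), g.2.2⟩ : {x : K // x * fr φ 4 x = 1}))
  intro x y hxy
  have h := congrArg Subtype.val hxy
  dsimp only at h
  show (idxu_f φ) (x⁻¹ * y) ∈ idx_N φ 1
  rw [map_mul, map_inv]
  have hc : ∀ g : idx_G φ, idx_cf 0 g.val.val = PowerSeries.constantCoeff (g.val.val 0 0) := by
    intro g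
    rw [idx_cf_eq (m := 0) (s := 0) (j := 0) (by simp), PowerSeries.coeff_zero_eq_constantCoeff]
  apply idx_same
  · exact idx_Filp_sub (idx_G_F0 _) (idx_G_F0 _)
  · rw [idx_cf_sub, hc, hc, idxu_f_val, idxu_f_val, h, sub_self]

theorem idxu_relm (m : ℕ) : (idxu_N φ (m + 1)).relIndex (idxu_N φ m) ≠ 0 ∧
    (idxu_N φ (m + 1)).relIndex (idxu_N φ m) ≤ (idx_N φ (m + 1)).relIndex (idx_N φ m) := by
  have h1 : (idxu_N φ (m + 1)).relIndex (idxu_N φ m) =
      (idx_N φ (m + 1)).relIndex ((idxu_N φ m).map (idxu_f φ)) := by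
    unfold idxu_N
    exact Subgroup.relIndex_comap _ _ _
  have h2 : (idxu_N φ m).map (idxu_f φ) ≤ idx_N φ m := Subgroup.map_comap_le _ _
  rw [h1]
  refine ⟨fun h => (idx_relm (φ := φ) m).1 (Subgroup.relIndex_eq_zero_of_le_right h2 h), ?_⟩
  exact Subgroup.relIndex_le_of_le_right h2 (idx_relm (φ := φ) m).1

theorem idxu_main (n : ℕ) : (idxu_N φ (n + 1)).index ≠ 0 ∧
    (idxu_N φ (n + 1)).index ≤ Nat.card {x : K // x * fr φ 4 x = 1} *
      Nat.card K ^ (n - n / 4) * Nat.card {x : K // tr4 φ x = 0} ^ (n / 4) := by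
  induction n with
  | zero =>
    have := idxu_rel0 (φ := φ)
    simpa using this
  | succ n ih =>
    have hmul := Subgroup.relIndex_mul_index (idxu_N_le (φ := φ) (n + 1))
    have hr := idxu_relm (φ := φ) (n + 1)
    have hr2 := (idx_relm (φ := φ) (n + 1)).2
    refine ⟨?_, ?_⟩
    · rw [← hmul]
      exact mul_ne_zero hr.1 ih.1
    · rw [← hmul]
      by_cases h3 : (n + 1) % 4 = 0
      · obtain ⟨s, hs⟩ : ∃ s, n + 1 = 4 * s := ⟨(n + 1) / 4, by omega⟩
        have h1 := idx_rel4 (φ := φ) s (by omega)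
        rw [← hs] at h1
        have e1 : (n + 1) / 4 = n / 4 + 1 := by omega
        have e2 : n + 1 - (n / 4 + 1) = n - n / 4 := by omega
        rw [e1, e2, pow_succ]
        calc (idxu_N φ (n + 1 + 1)).relIndex (idxu_N φ (n + 1)) * (idxu_N φ (n + 1)).index
            ≤ Nat.card {x : K // tr4 φ x = 0} *
              (Nat.card {x : K // x * fr φ 4 x = 1} *
                Nat.card K ^ (n - n / 4) * Nat.card {x : K // tr4 φ x = 0} ^ (n / 4)) :=
              Nat.mul_le_mul (hr.2.trans h1) ih.2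
          _ = _ := by ring
      · have e1 : (n + 1) / 4 = n / 4 := by omega
        have e2 : n + 1 - n / 4 = (n - n / 4) + 1 := by omega
        rw [e1, e2, pow_succ]
        calc (idxu_N φ (n + 1 + 1)).relIndex (idxu_N φ (n + 1)) * (idxu_N φ (n + 1)).index
            ≤ Nat.card K *
              (Nat.card {x : K // x * fr φ 4 x = 1} *
                Nat.card K ^ (n - n / 4) * Nat.card {x : K // tr4 φ x = 0} ^ (n / 4)) :=
              Nat.mul_le_mul (hr.2.trans hr2) ih.2
          _ = _ := by ring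

end group

theorem st_IDXU : ST_IDXU := by
  intro K _ _ φ _
  refine ⟨idxu_G φ, fun g => idxu_mem g, fun d hd => ?_⟩
  obtain ⟨n, rfl⟩ : ∃ n, d = n + 1 := ⟨d - 1, by omega⟩
  refine ⟨idxu_N φ (n + 1), idxu_normal _, fun g => Iff.rfl, ?_⟩
  rw [Nat.add_sub_cancel]
  exact idxu_main n

end Pool.Agent.Helper69.GU
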